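import Mathlib

set_option autoImplicit false

namespace Pool.Agent.Results.MP_d302e1_nt.Eleven

/-- formulas built from copies of one constant with binary `+` and `×` -/
inductive Ex : Type
  | c : Ex
  | add : Ex → Ex → Ex
  | mul : Ex → Ex → Ex

/-- the value when the constant is `l` -/
def Ex.val (l : ℕ) : Ex → ℕ
  | .c => l
  | .add a b => a.val l + b.val l
  | .mul a b => a.val l * b.val l

/-- the number of copies of the constant -/
def Ex.size : Ex → ℕ
  | .c => 1
  | .add a b => a.size + b.size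
  | .mul a b => a.size + b.size

/-- the number of summands of the outermost (flattened) sum that are the literal constant -/
def Ex.lits : Ex → ℕ
  | .c => 1
  | .add a b => a.lits + b.lits
  | .mul _ _ => 0

/-- no sum has four or more summands that are the literal constant -/
def Ex.Reduced : Ex → Prop
  | .c => True
  | .add a b => a.lits + b.lits ≤ 3 ∧ a.Reduced ∧ b.Reduced
  | .mul a b => a.Reduced ∧ b.Reduced

/-- the `l`-complexity of `n` -/
noncomputable def cx (l n : ℕ) : ℕ := sInf {s | ∃ e : Ex, e.val l = n ∧ e.size = s}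

def T : ℕ → List ℕ
  | 1 => [1]
  | 2 => [1, 2]
  | 3 => [1, 2, 3]
  | 4 => [1, 2, 3, 4]
  | 5 => [1, 2, 3, 4, 5, 6]
  | 6 => [1, 2, 3, 4, 5, 6, 7, 8, 9]
  | 7 => [1, 2, 3, 4, 5, 6, 7, 8, 9, 10, 12]
  | _ => []

theorem size_pos (e : Ex) : 0 < e.size := by
  induction e <;> simp only [Ex.size] <;> omega

theorem mem_T (e : Ex) (h : e.size ≤ 7) : e.val 1 ∈ T e.size := by
  have key : ∀ i < 8, ∀ j < 8, i + j ≤ 7 → ∀ a ∈ T i, ∀ b ∈ T j,
      a + b ∈ T (i + j) ∧ a * b ∈ T (i + j) := by decide +kernel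
  induction e with
  | c => simp [Ex.val, Ex.size, T]
  | add a b iha ihb =>
    simp only [Ex.size] at h
    exact (key _ (by omega) _ (by omega) h _ (iha (by omega)) _ (ihb (by omega))).1
  | mul a b iha ihb =>
    simp only [Ex.size] at h
    exact (key _ (by omega) _ (by omega) h _ (iha (by omega)) _ (ihb (by omega))).2

def three : Ex := .add .c (.add .c .c)

def R : Ex := .add .c (.add .c (.mul three three))

def Q : Ex := .mul (.add (.mul .c (.mul .c .c)) .c) (.mul .c .c)

theorem cx11 : cx 1 11 = 8 := by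
  have h8 : 8 ∈ {s | ∃ e : Ex, e.val 1 = 11 ∧ e.size = s} := ⟨R, by decide, by decide⟩
  refine le_antisymm (Nat.sInf_le h8) (le_csInf ⟨8, h8⟩ ?_)
  rintro s ⟨e, h1, rfl⟩
  by_contra h
  have h2 := mem_T e (by omega)
  rw [h1] at h2
  have : ∀ i < 8, 11 ∉ T i := by decide
  exact this _ (by omega) h2

/-- A reduced most efficient representation of `11` whose doubled value `40` has smaller
`2`-complexity. -/
theorem result :
    ∃ (n : ℕ) (e : Ex), 0 < n ∧ e.val 1 = n ∧ e.size = cx 1 n ∧ e.Reduced ∧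
      cx 2 (e.val 2) < cx 1 n := by
  refine ⟨11, R, by norm_num, by decide, by rw [cx11]; decide,
    by simp [R, three, Ex.Reduced, Ex.lits], ?_⟩
  rw [cx11]
  exact lt_of_le_of_lt (Nat.sInf_le ⟨Q, by decide, rfl⟩) (by decide)

end Pool.Agent.Results.MP_d302e1_nt.Eleven
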